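import Pool.Agent.H95.HC.Main

/-!
# The Mumford-Tate conjecture for abelian varieties and coverings of affine spaces

Let `k` be an algebraic closure of a field finitely generated over `ℚ`, with an embedding in `ℂ`, and let
`ℓ` be a prime number. Let `M` be the category of motives over `k` in the sense of André, a semisimple
abelian category with Tate twists `N ↦ N(a)`. For a separated scheme `X` of finite type over `k` let
`D.H i X` be the object of `M` given by the graded object of the weight filtration of the cohomology with
compact supports `H^i_c(X)`; for smooth projective `X` it is the motive `h^i(X)`. The standard properties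
are collected in `IsFlatMotives`: long exact sequences, affine bundles, flat morphisms with affine spaces
as fibres, `𝔾_m`, direct factors for open and closed subschemes and for the coverings `s ^ d = u`,
resolution of singularities, semisimplicity.

`mt N` is the Mumford-Tate conjecture at `ℓ` for the motive `N` (for a model of `N` over a finitely
generated field): the Mumford-Tate group of the Hodge realization of `N` is generated by the image of an
open subgroup of the Galois group. `IsMT D Ab mt` collects the known facts that are used, for the abelian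
varieties (`Ab`) over `k`:

* the conjecture is true for the motives of the point `Spec k`, and it is inherited by direct factors; by
  the theorem of Vasiu and Commelin it is true for `N ⊕ N'` and for `N(a)`, if it is true for `N` and `N'`
  and these are direct factors of finite direct sums of Tate twists of motives of curves;
* `h^i` of a smooth projective curve is a sum of Tate motives (and the conjecture is true for it) or it
  is `h^1(A)` for the Jacobian `A`; for every abelian variety `A` the motive `h^1(A)` is a direct factor
  of `h^1(C)` for a curve `C`.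

Let `CBuilt n` be the smallest class of schemes over `k` which contains all separated schemes of finite
type of dimension at most `n` and is closed under closed-open decompositions (two out of three), certain
affine bundles (in both directions), division by `𝔾_m` and descent along the cyclic coverings
`s ^ d = u`, and which contains with `Spec A` and the closed subscheme `f = 0` of `Spec A` the covering
`∏_{c ∈ S} (w - c) = ∑ x_l f_l` of `𝔸^m_A`, for finite non-empty sets `S ⊆ k`, and conversely, if
`|S| ≥ 2`, with `Spec A` and the covering the closed subscheme `f = 0`. There is no restriction on the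
dimension of the schemes in this class.

**Theorem.** (1) The motives `Gr^W H^i_c(X)` of all schemes `X` in `CBuilt 1`, of any dimension, are direct
factors of finite direct sums of Tate twists of motives of smooth projective curves.

(2) The Mumford-Tate conjecture at `ℓ` is true for all abelian varieties over `k` if and only if it is
true for the motives `Gr^W H^i_c(X)` of all schemes `X` in `CBuilt 1`. So the conjecture for abelian
varieties implies the conjecture for all cohomology groups of all smooth projective varieties in
`CBuilt 1`, of any dimension.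

(3) It is true for all abelian varieties over `k` if and only if it is true for the motives
`Gr^W H^i_c(X)` of the smooth coverings `X : ∏_{c ∈ S} (w - c) = t(x, y, z)` of affine spaces, for all
trilinear forms `t` over `k` with at most three variables `z` (the other two blocks are arbitrary), where
`S` is one fixed subset of `k` with at least two elements; for example for the double coverings
`w ^ 2 = 1 + t(x, y, z)`.

(4) For all `n` the class `CBuilt n` contains the coverings `∏_{c ∈ S} (w - c) = t(x, y, z)` with at most
`n + 2` variables `z`, and the coverings `∏_{c ∈ S} (w - c) = ∑ x_l f_l(z)` of affine spaces with at most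
`n + 1` variables `z_i`, or with a scheme `f = 0` of dimension at most `n`, or with `f_1, …, f_(n+1)` of
degree at most two and all other `f_l` of degree at most one. All these coverings are smooth.
-/

set_option autoImplicit false

open CategoryTheory CategoryTheory.Limits AlgebraicGeometry Pool.Agent.Y116.UV Pool.Agent.Z125.UN
  Pool.Agent.Q193.LT Pool.Agent.H95.DC Pool.Agent.H95.WC Pool.Agent.H95.HC

universe v u

namespace Pool.Agent.Results.MP_33b3f9_ag.CoveringsOfAffineSpaces

variable {k : Type} [Field k] {M : Type u} [Category.{v} M] [Abelian M]

/-- `N` is a direct factor of a finite direct sum of Tate twists of motives `h^i(C)` of smooth projective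
curves `C`. -/
def Cv (D : CompactData k M) (N : M) : Prop := FactorOfSum D (OfProj D 1) N

/-- The known facts about the Mumford-Tate conjecture (`mt`) and abelian varieties (`Ab`), see above. -/
structure IsMT (D : CompactData k M) (Ab : Sch k → Prop) (mt : M → Prop) : Prop where
  zero : ∀ N, IsZero N → mt N
  point : ∀ i, mt (D.H i (aff k k))
  factor : ∀ {N N' : M} (i : N ⟶ N') (r : N' ⟶ N), i ≫ r = 𝟙 N → mt N' → mt N
  sum : ∀ {N N' : M}, Cv D N → Cv D N' → mt N → mt N' → mt (N ⊞ N')
  twist : ∀ (a : ℤ) {N : M}, Cv D N → mt N → mt ((D.tw a).obj N)
  curve : ∀ Y : Sch k, SmoothProj Y → topologicalKrullDim Y.left ≤ (1 : ℕ) → ∀ i,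
    mt (D.H i Y) ∨ ∃ A, Ab A ∧ Nonempty (D.H i Y ≅ D.H 1 A)
  jacobian : ∀ A, Ab A → ∃ Y : Sch k, SmoothProj Y ∧ topologicalKrullDim Y.left ≤ (1 : ℕ) ∧
    ∃ (i : D.H 1 A ⟶ D.H 1 Y) (r : D.H 1 Y ⟶ D.H 1 A), i ≫ r = 𝟙 _

/-- **The Mumford-Tate conjecture for abelian varieties and coverings of affine spaces.** See the
explanations above. -/
theorem result [IsAlgClosed k] [CharZero k] {D : CompactData k M} (h : IsFlatMotives D)
    {Ab : Sch k → Prop} {mt : M → Prop} (hm : IsMT D Ab mt) :
    (∀ X : Sch k, CBuilt 1 X → ∀ i, Cv D (D.H i X)) ∧
    ((∀ A, Ab A → mt (D.H 1 A)) ↔ ∀ X : Sch k, CBuilt 1 X → ∀ i, mt (D.H i X)) ∧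
    (∀ S : Finset k, 2 ≤ S.card → ((∀ A, Ab A → mt (D.H 1 A)) ↔
      FormCoverings S 3 fun X => ∀ i, mt (D.H i X))) ∧
    CovMembers k := by
  have hD := h.compact
  have hss : ∀ {X Y : M} (f : X ⟶ Y), Mono f → ∃ r : Y ⟶ X, f ≫ r = 𝟙 X := h.semisimple
  have hcv : IsTateSerre D (Cv D) := gen_serre hD hss
  -- the class of the objects whose factors and twists are as wanted
  let Q : M → Prop := fun N => Cv D N → mt N
  have hQ : IsTateSerre D (Facts D Q) := by
    refine facts_serre hD hss (fun X hX _ => hm.zero X hX) ?_ ?_
    · intro X Y e hX hY
      exact hm.factor e.inv e.hom e.inv_hom_id (hX (hcv.toIsSerre.iso e.symm hY))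
    · intro X Y hX hY hXY
      have h1 : Cv D X := hcv.toIsSerre.of_mono biprod.inl hXY
      have h2 : Cv D Y := hcv.toIsSerre.of_mono biprod.inr hXY
      exact hm.sum h1 h2 (hX h1) (hY h2)
  have hto : ∀ N, Cv D N → mt N → Facts D Q N := fun N hN hmt a N' i r hir _ =>
    hm.factor i r hir (hm.twist a hN hmt)
  have hfrom : ∀ N, Cv D N → Facts D Q N → mt N := fun N hN hf => by
    obtain ⟨e⟩ := hD.twZero
    exact hf 0 N (e.inv.app N) (e.hom.app N) (e.inv_hom_id_app N) hN
  have hcb : ∀ X : Sch k, CBuilt 1 X → ∀ i, Cv D (D.H i X) := fun X hX i => built_factor h hX i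
  have hcurve : ∀ Y : Sch k, SmoothProj Y → topologicalKrullDim Y.left ≤ (1 : ℕ) →
      ∀ i, Cv D (D.H i Y) := fun Y hY hn i => hcb Y (.dim Y hY.ft hn) i
  have hpt : ∀ i, Cv D (D.H i (aff k k)) := point_factor hD h.generated hss 1 hcurve
  have hzero : ∀ i, Facts D Q (D.H i (aff k k)) := fun i => hto _ (hpt i) (hm.point i)
  have hC := covC_coh h hQ hzero
  -- from abelian varieties to the class
  have key : (∀ A, Ab A → mt (D.H 1 A)) → ∀ X : Sch k, CBuilt 1 X → ∀ i, mt (D.H i X) := by
    intro hA X hX i
    refine hfrom _ (hcb X hX i) (of_cbuilt hC (fun Y hY hn => ?_) X hX i)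
    refine h.generated 1 _ hQ (fun Y hY hn i => hto _ (hcurve Y hY hn i) ?_) Y hY hn
    rcases hm.curve Y hY hn i with h1 | ⟨A, h1, ⟨e⟩⟩
    · exact h1
    · exact hm.factor e.hom e.inv e.hom_inv_id (hA A h1)
  refine ⟨hcb, ⟨key, fun hX A hA => ?_⟩, fun S hS => ⟨fun hA a b c t hc => key hA _
    ((covMembers (k := k)).forms 1 S (Finset.card_pos.mp (by omega)) a b c t hc),
    fun hT A hA => ?_⟩, covMembers⟩
  · obtain ⟨Y, hY, hn, i, r, hir⟩ := hm.jacobian A hA
    exact hm.factor i r hir (hX Y (.dim Y hY.ft hn) 1)
  · obtain ⟨Y, hY, hn, i, r, hir⟩ := hm.jacobian A hA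
    refine hm.factor i r hir (hfrom _ (hcurve Y hY hn 1) ?_)
    refine (dim_cov (covP_of_covPN hC.toCovPN) S hS 1).mpr (fun a b c t hc j => ?_) Y hY.ft hn 1
    exact hto _ (hcb _ ((covMembers (k := k)).forms 1 S (Finset.card_pos.mp (by omega)) a b c t
      hc) j) (hT a b c t hc j)

end Pool.Agent.Results.MP_33b3f9_ag.CoveringsOfAffineSpaces
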