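import Pool.Agent.H95.FM.Main

/-!
# The Mumford-Tate conjecture for abelian varieties, torus actions and equations with few monomials

Let `k` be an algebraic closure of a field finitely generated over `ℚ`, with an embedding in `ℂ`, and let
`ℓ` be a prime number. Let `M` be the category of motives over `k` in the sense of André, a semisimple
abelian category with Tate twists `N ↦ N(a)`. For a separated scheme `X` of finite type over `k` let
`D.H i X` be the object of `M` given by the graded object of the weight filtration of the cohomology with
compact supports `H^i_c(X)`; for smooth projective `X` it is the motive `h^i(X)`. The standard properties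
are collected in `IsMotives`.

`mt N` is the Mumford-Tate conjecture at `ℓ` for the motive `N` (for a model of `N` over a finitely
generated field): the Mumford-Tate group of the Hodge realization of `N` is generated by the image of an
open subgroup of the Galois group. `IsMT D Ab mt` collects the known facts that are used, for the abelian
varieties (`Ab`) over `k`:

* the conjecture is true for the motives of the point `Spec k`, and it is inherited by direct factors; by
  the theorem of Vasiu and Commelin it is true for `N ⊕ N'` and for `N(a)`, if it is true for `N` and `N'`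
  and these are direct factors of finite direct sums of Tate twists of motives of curves (`Cv`);
* `h^i` of a smooth projective curve is a sum of Tate motives (and the conjecture is true for it) or it
  is `h^1(A)` for the Jacobian `A`; for every abelian variety `A` the motive `h^1(A)` is a direct factor
  of `h^1(C)` for a curve `C`.

Let `X` be a closed subscheme of an affine space which is stable under a torus acting diagonally. It is
of complexity at most `n` if each stratum of `X` (given by the vanishing and non-vanishing of the
coordinates) has dimension at most `n` plus the dimension of the orbits of the torus in the stratum.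
There is no restriction on the dimension and on the singularities of `X`. Let `𝒢` be any class of
schemes whose motives `Gr^W H^i_c` are direct factors of finite direct sums of Tate twists of motives of
curves, for example: abelian varieties, Fermat hypersurfaces, cubic threefolds, varieties dominated by
products of curves. Let `Made 𝒢 n` be the smallest class of schemes which contains `𝒢` and the torus
schemes of complexity at most `n`, and which contains each one of `X`, `Z`, `U` with the other two, for the
closed subschemes `Z` of separated schemes `X` of finite type with complement `U`.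

**Theorem.** (1) The motives `Gr^W H^i_c(X)` of all schemes `X` in `Made 𝒢 1`, of any dimension, are direct
factors of finite direct sums of Tate twists of motives of smooth projective curves.

(2) The Mumford-Tate conjecture at `ℓ` is true for all abelian varieties over `k` if and only if it is
true for the motives `Gr^W H^i_c(X)` of all schemes `X` in `Made 𝒢 1`. So the conjecture for abelian
varieties implies the conjecture for all cohomology groups of all smooth projective varieties in
`Made 𝒢 1`, of any dimension.

(3) *Finitely many curves.* Let `Q` be a class of smooth proper irreducible schemes over `k` such that the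
varieties of dimension at most one have models in `Q`. For every `X` in `Made 𝒢 1` there are finitely many
schemes `Y`, each of which is in `𝒢`, or in `Q` and of dimension at most one, such that the Mumford-Tate
conjecture for the motives `Gr^W H^j_c(Y)` implies the conjecture for the motives `Gr^W H^i_c(X)`. The
schemes `Y` depend only on `X`, not on the category of motives and on `ℓ`. So for the conjecture for `X`
only the conjecture for the Jacobians of finitely many curves and for finitely many `Y` in `𝒢` is needed.

(4) `Made 𝒢 n` contains the schemes given by `c` linearly independent equations which have together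
at most `c + n + 1` monomials, and by any number of additional equations with at most two terms, in
an affine space of arbitrary dimension (`Sparse n`), and the inverse images of the cones of dimension
at most `n + 1` under all monomial maps between affine spaces, also with additional equations with at
most two terms (`Cones n`). (This is known from earlier work.)
-/

set_option autoImplicit false

open CategoryTheory CategoryTheory.Limits AlgebraicGeometry Pool.Agent.Y116.UV Pool.Agent.Z125.UN
  Pool.Agent.Q193.LT Pool.Agent.H39.Mot Pool.Agent.H95.FM Pool.Agent.W5h68.SP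
open Pool.Agent.H89.Dev (IsClass ModelsIn)

universe v u

namespace Pool.Agent.Results.MP_33b3f9_ag.FewMonomials

variable {k : Type} [Field k] {M : Type u} [Category.{v} M] [Abelian M]

/-- `N` is a direct factor of a finite direct sum of Tate twists of motives `h^i(C)` of smooth projective
curves `C`. -/
def Cv (D : CompactData k M) (N : M) : Prop := FactorOfSum D (OfProj D 1) N

/-- The known facts about the Mumford-Tate conjecture (`mt`) and abelian varieties (`Ab`), see above. -/
structure IsMT (D : CompactData k M) (Ab : Sch k → Prop) (mt : M → Prop) : Prop where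
  zero : ∀ N, IsZero N → mt N
  point : ∀ i, mt (D.H i (aff k k))
  factor : ∀ {N N' : M} (i : N ⟶ N') (r : N' ⟶ N), i ≫ r = 𝟙 N → mt N' → mt N
  sum : ∀ {N N' : M}, Cv D N → Cv D N' → mt N → mt N' → mt (N ⊞ N')
  twist : ∀ (a : ℤ) {N : M}, Cv D N → mt N → mt ((D.tw a).obj N)
  curve : ∀ Y : Sch k, SmoothProj Y → topologicalKrullDim Y.left ≤ (1 : ℕ) → ∀ i,
    mt (D.H i Y) ∨ ∃ A, Ab A ∧ Nonempty (D.H i Y ≅ D.H 1 A)
  jacobian : ∀ A, Ab A → ∃ Y : Sch k, SmoothProj Y ∧ topologicalKrullDim Y.left ≤ (1 : ℕ) ∧
    ∃ (i : D.H 1 A ⟶ D.H 1 Y) (r : D.H 1 Y ⟶ D.H 1 A), i ≫ r = 𝟙 _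

/-- The motives of all schemes with `𝒢` are direct factors of finite direct sums of Tate twists of motives
of curves. -/
def OfCurves (D : CompactData k M) (𝒢 : Sch k → Prop) : Prop := ∀ X, 𝒢 X → ∀ i, Cv D (D.H i X)

section

variable {D : CompactData k M} {Ab : Sch k → Prop} {mt : M → Prop}

/-- The objects whose direct factors and twists satisfy the conjecture if they come from curves. -/
def Good (D : CompactData k M) (mt : M → Prop) : M → Prop := Facts D fun N => Cv D N → mt N

lemma cv_serre (h : IsMotives D) : IsTateSerre D (Cv D) := gen_serre h.compact h.semisimple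

lemma good_serre (h : IsMotives D) (hm : IsMT D Ab mt) : IsTateSerre D (Good D mt) := by
  have hcv := cv_serre h
  refine facts_serre h.compact h.semisimple (fun X hX _ => hm.zero X hX) ?_ ?_
  · intro X Y e hX hY
    exact hm.factor e.inv e.hom e.inv_hom_id (hX (hcv.toIsSerre.iso e.symm hY))
  · intro X Y hX hY hXY
    have h1 : Cv D X := hcv.toIsSerre.of_mono biprod.inl hXY
    have h2 : Cv D Y := hcv.toIsSerre.of_mono biprod.inr hXY
    exact hm.sum h1 h2 (hX h1) (hY h2)

lemma good_of (hm : IsMT D Ab mt) {N : M} (hN : Cv D N) (h : mt N) : Good D mt N :=
  fun a _ i r hir _ => hm.factor i r hir (hm.twist a hN h)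

lemma of_good (h : IsMotives D) {N : M} (hN : Cv D N) (hg : Good D mt N) : mt N := by
  obtain ⟨e⟩ := h.compact.twZero
  exact hg 0 N (e.inv.app N) (e.hom.app N) (e.inv_hom_id_app N) hN

end

/-- **The Mumford-Tate conjecture for abelian varieties, torus actions of complexity at most one and
equations with few monomials.** See the explanations above. -/
theorem result {k : Type} [Field k] [IsAlgClosed k] [CharZero k] (𝒢 : Sch k → Prop) :
    (∀ (M : Type u) [Category.{v} M] [Abelian M] (D : CompactData k M) (Ab : Sch k → Prop)
      (mt : M → Prop), IsMotives D → IsMT D Ab mt → OfCurves D 𝒢 →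
        (∀ X, Made 𝒢 1 X → ∀ i, Cv D (D.H i X)) ∧
        ((∀ A, Ab A → mt (D.H 1 A)) ↔ ∀ X : Sch k, Made 𝒢 1 X → ∀ i, mt (D.H i X))) ∧
    (∀ Q : Sch k → Prop, IsClass Q → ModelsIn Q 1 → ∀ X : Sch k, Made 𝒢 1 X →
      ∃ 𝒴 : List (Sch k), (∀ Y ∈ 𝒴, (Q Y ∧ topologicalKrullDim Y.left ≤ (1 : ℕ)) ∨ 𝒢 Y) ∧
        ∀ (M : Type u) [Category.{v} M] [Abelian M] (D : CompactData k M) (Ab : Sch k → Prop)
          (mt : M → Prop), IsMotives D → IsMT D Ab mt → OfCurves D 𝒢 →
            (∀ Y ∈ 𝒴, ∀ i, mt (D.H i Y)) → ∀ i, mt (D.H i X)) ∧
    ∀ n : ℕ, Sparse (k := k) n (Made 𝒢 n) ∧ Cones (k := k) n (Made 𝒢 n) := by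
  refine ⟨fun M _ _ D Ab mt h hm hG => ?_, fun Q hQ hM X hX => ?_,
    fun n => ⟨sparse_made 𝒢 n, cones_made 𝒢 n⟩⟩
  · have hcv := cv_serre h
    have hgood := good_serre h hm
    have hcurve : ∀ Y : Sch k, SmoothProj Y → topologicalKrullDim Y.left ≤ (1 : ℕ) →
        ∀ i, Cv D (D.H i Y) := fun Y hY hn i => FactorOfSum.self h.compact ⟨Y, i, hY, hn, rfl⟩
    have hcb : ∀ X : Sch k, Made 𝒢 1 X → ∀ i, Cv D (D.H i X) := fun X hX i =>
      made_serre h hcv hcurve hG X hX i
    refine ⟨hcb, fun hA X hX i => of_good h (hcb X hX i) ?_, fun hX A hA => ?_⟩
    · refine gen_le hgood (fun N hN => ?_) (hcb X hX i)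
      obtain ⟨Y, j, hY, hn, rfl⟩ := hN
      refine good_of hm (hcurve Y hY hn j) ?_
      rcases hm.curve Y hY hn j with h1 | ⟨A, h1, ⟨e⟩⟩
      · exact h1
      · exact hm.factor e.hom e.inv e.hom_inv_id (hA A h1)
    · obtain ⟨Y, hY, hn, i, r, hir⟩ := hm.jacobian A hA
      refine hm.factor i r hir (of_good h (hcurve Y hY hn 1) ?_)
      have hzero : ∀ i, Good D mt (D.H i (aff k k)) := fun i =>
        good_of hm (point_factor h.compact h.generated h.semisimple 1 hcurve i) (hm.point i)
      exact made_of_proj hY hn (bnd_compact h.compact hgood hzero)
        (fun X hX' j => good_of hm (hcb X hX' j) (hX X hX' j)) 1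
  · obtain ⟨L, h1, h2⟩ := fin_data.{v, u} hQ hM 𝒢 X hX
    refine ⟨L, h1, fun M _ _ D Ab mt h hm hG hY => ?_⟩
    have hcv := cv_serre h
    have hgood := good_serre h hm
    have hcurve : ∀ Y : Sch k, SmoothProj Y → topologicalKrullDim Y.left ≤ (1 : ℕ) →
        ∀ i, Cv D (D.H i Y) := fun Y hY hn i => FactorOfSum.self h.compact ⟨Y, i, hY, hn, rfl⟩
    have hzero : ∀ i, Good D mt (D.H i (aff k k)) := fun i =>
      good_of hm (point_factor h.compact h.generated h.semisimple 1 hcurve i) (hm.point i)
    intro i
    refine of_good h (made_serre h hcv hcurve hG X hX i) (h2 M D h.compact _ hgood hzero ?_ i)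
    intro Y hYL j
    refine good_of hm ?_ (hY Y hYL j)
    rcases h1 Y hYL with ⟨hYQ, hn⟩ | hYG
    · exact h.generated 1 _ hcv hcurve Y (hQ.ft hYQ) hn j
    · exact hG Y hYG j

end Pool.Agent.Results.MP_33b3f9_ag.FewMonomials
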