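import Mathlib
import Pool.Agent.H86.T3.Fin

/-!
# The Mumford-Tate conjecture for abelian varieties of type III, from one group element for each part

Let `A` be an abelian variety over a finitely generated field of complex numbers, `W = H_1(A, ℚ)`
with the polarization form `ω₀`, `T` the tangent space at the origin and `per : W → T` the inclusion
(`ℝ ⊗ W = T`, hypothesis `hper`); `V = ℚ_ℓ ⊗ W` is the rational Tate module, with the continuous
action `ρ` of the Galois group `Γ` (of the field, or of a finite extension) and the cyclotomic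
character `χ`.  Let `K` be the algebraic closure of `ℚ_ℓ` and `X = K ⊗ V`.  A subspace of `X` is
*strongly irreducible* if it is a minimal nonzero subspace stable under a subgroup of finite index.

Suppose that `X` is the sum of strongly irreducible subspaces `E i` which are all *orthogonal*: there
is a symmetric nonzero form on `E i` on which a subgroup of finite index acts by `χ`.  These are the
abelian varieties all of whose simple factors are of type III in the classification of Albert.  If `A`
is simple, its endomorphism algebra (over the algebraic closure) is a totally definite quaternion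
algebra over a totally real field `F`, the isomorphism classes of the parts correspond to the
embeddings of `F` in `K`, and their dimension is `dim A / [F : ℚ]`.

Hypotheses.

* `hss`, `hF`: the theorems of Faltings (semisimplicity; the endomorphisms of `V` which commute with
  an open subgroup of the Galois group are combinations of endomorphisms of `A`).
* `helt`: for each `i` ONE element `γ` of the group satisfies one of the following conditions
  (`HasElement`).
  1. `γ` is a similitude of `E i` with factor `μ`, diagonalizable on `E i`, with a simple eigenvalue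
     `λ`, `λ ^ 2 ≠ μ`, which is *isolated*: `λ p q r = μ ^ 2` for eigenvalues `p, q, r` (with different
     indices of `p` and `q`, and with the index of `r` different from the one of `λ`) only if
     `λ p = μ` or `λ q = μ` or `λ r = μ`.  Moreover `γ` stabilizes the parts `E j` which are not
     isomorphic to `E i` over a subgroup of finite index, and the ratios `λ / κ` and `κ / λ`, for the
     eigenvalues `κ` of `γ` on `E i` different from `λ` and `μ / λ`, are not ratios of two
     eigenvalues of `γ` on `E j`.
  2. `γ` acts on `E i` as a scalar times an orthogonal reflection, stabilizes the parts `E j` which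
     are not isomorphic to `E i`, and two eigenvalues of `γ` on `E j` have never the ratio `-1`.

`γ` is any element of the group: a Frobenius element at a place of good reduction with any Newton
polygon, or an element of an inertia group.  If `F = ℚ` (the endomorphism algebra is a definite
quaternion algebra over the rational numbers) then all the `E i` are isomorphic, and the conditions
about the `E j` are empty.

Theorem.  The Mumford-Tate conjecture holds for `A`: all Tate classes in all the tensor powers
`(H^1)^{⊗ 2 m}(m)` are linear combinations of Hodge classes.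

Example.  The isolated eigenvalues include the generic case (no multiplicative relation between the
eigenvalues except those which come from the pairs `λ, μ / λ`), and the scalar multiples of bireflections
with eigenvalues `c, c⁻¹, 1, …, 1`, `c ^ 2 ≠ 1`, `c ≠ 1`.

The results of this kind in the starting files exclude type III: `OneElementPerPart` treats symplectic
parts and parts which are not self-dual (its condition (1) on an isolated eigenvalue is used there
because the eigencomponents of the Lie algebra are operators of rank one, or symplectic of rank two and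
square zero; the orthogonal Lie algebra contains no operators of rank one).  Known for type III are
the case that `dim A / 2 [F : ℚ]` is odd (Banaszak, Gajda, Krasoń), some cases of Vasiu, and small
dimensions.

Idea of the proof.  Let `L` be the Lie algebra of the operators of `X` that kill all Tate classes; it
commutes only with operators which commute with a subgroup of finite index of `Γ` (this uses
compactness), so it acts irreducibly on every strongly irreducible subspace `U`: a subspace of `U`
stable under `L` is a direct summand as a module over `L` (the sum of its translates is `U`) and the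
projection commutes with a subgroup of finite index.  Let `e` be an eigenvector for the isolated
eigenvalue and `f` one for the eigenvalue `μ / λ`, with product one.  Let `x ∈ L` be in
the generalized eigenspace of the conjugation by `γ` for the ratio `ν / λ` or `ν λ / μ`, with `ν`
different from `λ` and `μ / λ`.  As the eigenvalue is isolated, `x` acts on `U` as an operator
`e ∧ w` or `f ∧ w` of rank two, and by the condition about the `E j` it kills all the other parts, i.e. it
lies in an ideal `J` of `L`.  Let `N` be the space of the `w` orthogonal to `e`, `f` with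
`e ∧ w ∈ J`, and `N'` the one for `f`.  Using irreducibility one shows `N = N'` and `U = K e + K f + N`,
and `J` contains all operators `a ∧ b` of `U`.  In the case of a reflection with vector `a` the space
of the `w` with `a ∧ w ∈ J` is stable under `L`.  So `L` contains all operators which are skew for the
polarization and commute with the operators that commute with a subgroup of finite index of `Γ`, hence
by the theorem of Faltings the Lie algebra of the Mumford-Tate group (up to scalars).
-/

namespace Pool.Agent.Results.MP_33b3f9_ag.OrthogonalParts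

open Module TensorProduct Pool.Agent.H204R3.SP Pool.Agent.H204R3.GP Pool.Agent.TH118.MT

section defs

variable {K : Type} [Field K] {X : Type} [AddCommGroup X] [Module K X] {Γ : Type} [Group Γ]

/-- `U` is stable under a subgroup of finite index. -/
def PotentiallyStable (R : Representation K Γ X) (U : Submodule K X) : Prop :=
  ∃ Δ : Subgroup Γ, Δ.FiniteIndex ∧ ∀ g ∈ Δ, ∀ u ∈ U, R g u ∈ U

/-- `U` is a minimal nonzero subspace which is stable under a subgroup of finite index. -/
def StronglyIrreducible (R : Representation K Γ X) (U : Submodule K X) : Prop :=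
  U ≠ ⊥ ∧ PotentiallyStable R U ∧ ∀ W ≤ U, PotentiallyStable R W → W = ⊥ ∨ W = U

/-- There is a nonzero map from `U` to `U'` which commutes with a subgroup of finite index (so `U`
and `U'` are isomorphic as representations of this group if they are strongly irreducible). -/
def PotentiallyIsomorphic (R : Representation K Γ X) (U U' : Submodule K X) : Prop :=
  ∃ Δ : Subgroup Γ, Δ.FiniteIndex ∧ ∃ T : X →ₗ[K] X, (∀ u ∈ U, T u ∈ U') ∧ (∃ u ∈ U, T u ≠ 0) ∧
    ∀ g ∈ Δ, ∀ u ∈ U, T (R g u) = R g (T u)

/-- The form `B` is symmetric and nonzero on `U`, and a subgroup of finite index acts on it by the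
character `χ`. -/
def IsOrthogonalForm (R : Representation K Γ X) (χ : Γ →* K) (U : Submodule K X)
    (B : X →ₗ[K] X →ₗ[K] K) : Prop :=
  (∀ u ∈ U, ∀ v ∈ U, B u v = B v u) ∧ (∃ u ∈ U, ∃ v ∈ U, B u v ≠ 0) ∧
    ∃ Δ : Subgroup Γ, Δ.FiniteIndex ∧ ∀ g ∈ Δ, ∀ u ∈ U, ∀ v ∈ U, B (R g u) (R g v) = χ g * B u v

/-- `γ` stabilizes `U`, and `κ` is not an eigenvalue of the conjugation by `γ` on the operators of
`U`, i.e. it is not the ratio of two eigenvalues of `γ` on `U`. -/
def IsNotRatio (R : Representation K Γ X) (γ : Γ) (κ : K) (U : Submodule K X) : Prop :=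
  (∀ u ∈ U, R γ u ∈ U) ∧ ∀ Y : End K X, (∀ u ∈ U, Y u ∈ U) →
    (∀ u ∈ U, R γ (Y u) = κ • Y (R γ u)) → ∀ u ∈ U, Y u = 0

/-- The part `E i` is orthogonal and one of the following conditions holds.

(1) Some element `γ` of the group is a similitude of `E i` with factor `μ` and is diagonalizable on
`E i`, with a simple eigenvalue `λ = a k₀`, `λ ^ 2 ≠ μ`, which is isolated, and for the eigenvalues
`κ = a k` different from `λ` and `μ / λ` the numbers `λ / κ` and `κ / λ` are not ratios of two
eigenvalues of `γ` on a part `E j` which is not isomorphic to `E i`.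

(2) Some element `γ` of the group acts on `E i` as a scalar times the reflection in `v`, and `-1` is
not the ratio of two eigenvalues of `γ` on a part `E j` which is not isomorphic to `E i`. -/
def HasElement (R : Representation K Γ X) (χ : Γ →* K) {I : Type} (E : I → Submodule K X)
    (i : I) : Prop :=
  ∃ B : X →ₗ[K] X →ₗ[K] K, IsOrthogonalForm R χ (E i) B ∧ ∃ γ : Γ,
    ((∃ μ : K, (∀ u ∈ E i, ∀ v ∈ E i, B (R γ u) (R γ v) = μ * B u v) ∧
      ∃ (n : ℕ) (b : Basis (Fin n) K (E i)) (a : Fin n → K) (k₀ : Fin n),
        (∀ k, R γ (b k : X) = a k • (b k : X)) ∧ (∀ k, a k = a k₀ → k = k₀) ∧ a k₀ * a k₀ ≠ μ ∧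
        (∀ p q k, p ≠ q → k ≠ k₀ → a k₀ * a p * a q * a k = μ * μ →
          a k₀ * a p = μ ∨ a k₀ * a q = μ ∨ a k₀ * a k = μ) ∧
        ∀ j, ¬PotentiallyIsomorphic R (E i) (E j) → ∀ k, a k ≠ a k₀ → a k₀ * a k ≠ μ →
          IsNotRatio R γ (a k₀ / a k) (E j) ∧ IsNotRatio R γ (a k / a k₀) (E j)) ∨
    (∃ (c : K) (v : X), v ∈ E i ∧ B v v = 1 ∧ (∀ u ∈ E i, R γ u = c • (u - (2 * B u v) • v)) ∧
      ∀ j, ¬PotentiallyIsomorphic R (E i) (E j) → IsNotRatio R γ (-1) (E j)))

theorem pi_iff (R : Representation K Γ X) (U U' : Submodule K X) :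
    PotentiallyIsomorphic R U U' ↔ Pool.Agent.W522.U.Tw R (fun _ => 1) U U' := by
  simp only [PotentiallyIsomorphic, Pool.Agent.W522.U.Tw, one_smul]

end defs

theorem result (ℓ : ℕ) [Fact ℓ.Prime]
    -- the complex abelian variety `A` with a polarization
    {W T : Type} [AddCommGroup W] [Module ℚ W] [FiniteDimensional ℚ W] [AddCommGroup T] [Module ℂ T]
    (per : W →+ T) (ω₀ : W →ₗ[ℚ] W →ₗ[ℚ] ℚ) (halt : ∀ v, ω₀ v v = 0)
    (hnondeg : ∀ u, (∀ v, ω₀ v u = 0) → u = 0) (hω₀ : IsHodgeBilinear per ω₀)
    (hper : ∃ e : ℝ ⊗[ℚ] W ≃ₗ[ℝ] T, ∀ w, e ((1 : ℝ) ⊗ₜ[ℚ] w) = per w)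
    -- the action of the Galois group on the Tate module
    {Γ : Type} [Group Γ] [TopologicalSpace Γ] [IsTopologicalGroup Γ] [CompactSpace Γ]
    (ρ : Representation ℚ_[ℓ] Γ (ℚ_[ℓ] ⊗[ℚ] W))
    (hcont : ∀ (f : Dual ℚ_[ℓ] (ℚ_[ℓ] ⊗[ℚ] W)) (x : ℚ_[ℓ] ⊗[ℚ] W), Continuous fun γ => f (ρ γ x))
    (χ : Γ →* ℚ_[ℓ]) (hω : ∀ s u v, bcb ℚ_[ℓ] ω₀ (ρ s u) (ρ s v) = χ s * bcb ℚ_[ℓ] ω₀ u v)
    -- the theorems of Faltings
    (hss : FiniteIndexSemisimple ρ) (hF : FaltingsEnd per (incl ℚ_[ℓ] W) ρ)
    -- the strongly irreducible parts
    {I : Type} (E : I → Submodule (AlgebraicClosure ℚ_[ℓ])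
      (AlgebraicClosure ℚ_[ℓ] ⊗[ℚ_[ℓ]] (ℚ_[ℓ] ⊗[ℚ] W)))
    (hE : ∀ i, StronglyIrreducible (bcr ρ (AlgebraicClosure ℚ_[ℓ])) (E i)) (hsum : ⨆ i, E i = ⊤)
    (helt : ∀ i, HasElement (bcr ρ (AlgebraicClosure ℚ_[ℓ])) (bcc χ (AlgebraicClosure ℚ_[ℓ])) E i) :
    MumfordTate per (incl ℚ_[ℓ] W) ρ χ := by
  obtain ⟨e, he⟩ := hper
  have hl1 : ∀ u, (∀ v, bcb ℚ_[ℓ] ω₀ u v = 0) → u = 0 := fun u hu =>
    Pool.Agent.W522.U.bcb_nondeg_left ω₀ hnondeg
      (Pool.Agent.W522.U.left_nondeg ω₀ halt hnondeg) u hu
  have hr1 : ∀ u, (∀ v, bcb ℚ_[ℓ] ω₀ v u = 0) → u = 0 := fun u hu =>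
    Pool.Agent.W522.U.bcb_nondeg_right ω₀ hnondeg
      (Pool.Agent.W522.U.left_nondeg ω₀ halt hnondeg) u hu
  have hl2 : ∀ u, (∀ v, bcb (AlgebraicClosure ℚ_[ℓ]) (bcb ℚ_[ℓ] ω₀) u v = 0) → u = 0 :=
    fun u hu => Pool.Agent.W522.U.bcb_nondeg_left (bcb ℚ_[ℓ] ω₀) hr1 hl1 u hu
  have hinv2 := bcb_inv (Ω := AlgebraicClosure ℚ_[ℓ]) ρ χ (bcb ℚ_[ℓ] ω₀) hω
  have hpr : HasProj (bcr ρ (AlgebraicClosure ℚ_[ℓ])) := Pool.Agent.W522.U.hasProj_bcr ρ _ hss
  have hcent := Pool.Agent.H86.T3.cent ℓ ρ hcont χ (bcb ℚ_[ℓ] ω₀) hl1 hω hss
  refine Pool.Agent.H86.T3.mt_of_lie ℓ e he hω₀ hl1 hF fun Y hY => ?_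
  refine Pool.Agent.H86.T3.glue hl2 hinv2 hpr hcent hE hsum (fun i => ?_) hY
  obtain ⟨B, hB, γ, hγ⟩ := helt i
  refine ⟨B, hB, ?_⟩
  have hG : Pool.Agent.H86.T3.Good _ _ E (E i) B :=
    Pool.Agent.H86.T3.good_of _ hl2 hinv2 hpr hcent hE (hE i) hB
  simp only [pi_iff] at hγ
  rcases hγ with ⟨μ, hμ, n, b, a, k₀, hb, h1, h2, h3, h4⟩ | ⟨c, v, hv, hvv, hγ, hj⟩
  · exact hG.isol b hμ hb h1 h2 h3 h4
  · exact hG.refl hv hvv hγ hj

end Pool.Agent.Results.MP_33b3f9_ag.OrthogonalParts
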