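import Pool.Agent.H95.QF.Main

/-!
# The Mumford-Tate conjecture for abelian varieties and systems of quadratic equations

Let `k` be an algebraic closure of a field finitely generated over `ℚ`, with an embedding in `ℂ`, and let
`ℓ` be a prime number. Let `M` be the category of motives over `k` in the sense of André, a semisimple
abelian category with Tate twists `N ↦ N(a)`. For a separated scheme `X` of finite type over `k` let
`D.H i X` be the object of `M` given by the graded object of the weight filtration of the cohomology with
compact supports `H^i_c(X)`; for smooth projective `X` it is the motive `h^i(X)`. The standard properties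
are collected in `IsCyclicMotives`: long exact sequences, affine bundles, `𝔾_m`, direct factors for the
coverings `s ^ d = u`, resolution of singularities, semisimplicity.

`mt N` is the Mumford-Tate conjecture at `ℓ` for the motive `N` (for a model of `N` over a finitely
generated field): the Mumford-Tate group of the Hodge realization of `N` is generated by the image of an
open subgroup of the Galois group. `IsMT D Ab mt` collects the known facts that are used, for the abelian
varieties (`Ab`) over `k`:

* the conjecture is true for the motives of the point `Spec k`, and it is inherited by direct factors; by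
  the theorem of Vasiu and Commelin it is true for `N ⊕ N'` and for `N(a)`, if it is true for `N` and `N'`
  and these are direct factors of finite direct sums of Tate twists of motives of curves;
* `h^i` of a smooth projective curve is a sum of Tate motives (and the conjecture is true for it) or it
  is `h^1(A)` for the Jacobian `A`; for every abelian variety `A` the motive `h^1(A)` is a direct factor
  of `h^1(C)` for a curve `C`.

Let `Built k n` be the smallest class of schemes which contains the affine schemes of dimension at most
`n` and is closed under closed-open decompositions (two out of three), affine bundles (in both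
directions), division by `𝔾_m` and descent along the coverings `s ^ d = u`, `u` a unit. There is no
restriction on the dimension of the schemes in this class.

**Theorem.** (1) The motives `Gr^W H^i_c(X)` of all schemes `X` in `Built k 1`, of any dimension, are
direct factors of finite direct sums of Tate twists of motives of smooth projective curves.

(2) The Mumford-Tate conjecture at `ℓ` is true for all abelian varieties over `k` if and only if it is
true for the motives `Gr^W H^i_c(X)` of all schemes `X` in `Built k 1`. So the conjecture for abelian
varieties implies the conjecture for all cohomology groups of all smooth projective varieties in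
`Built k 1`, of any dimension.

(3) If the Mumford-Tate conjecture is true for all finite direct sums of Tate twists of the motives
`Gr^W H^i_c(X)` of the affine schemes `X` given by **three** equations of degree at most two (in any
number of variables), then it is true for all abelian varieties over `k`.

(4) The class `Built k n` contains all schemes given by `r + 1` quadratic equations and any number of
linear equations in any number of variables over an affine base `Spec A`, if `dim A + r ≤ n`. It contains
all closed subschemes of projective spaces which are the intersection of `n + 1` quadrics and hyperplanes.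
So for `n = 1` the conjecture for abelian varieties implies the conjecture for all systems of **two**
quadratic and any linear equations, for families of quadrics over curves, and for intersections of two
quadrics in projective spaces, with arbitrary singularities.
-/

set_option autoImplicit false

open CategoryTheory CategoryTheory.Limits AlgebraicGeometry Pool.Agent.Y116.UV Pool.Agent.Z125.UN
  Pool.Agent.Q193.LT Pool.Agent.H91.QS Pool.Agent.H95.QF

universe v u

namespace Pool.Agent.Results.MP_33b3f9_ag.QuadraticSystems

variable {k : Type} [Field k] {M : Type u} [Category.{v} M] [Abelian M]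

/-- `N` is a direct factor of a finite direct sum of Tate twists of motives `h^i(C)` of smooth projective
curves `C`. -/
def Cv (D : CompactData k M) (N : M) : Prop := FactorOfSum D (OfProj D 1) N

/-- The known facts about the Mumford-Tate conjecture (`mt`) and abelian varieties (`Ab`), see above. -/
structure IsMT (D : CompactData k M) (Ab : Sch k → Prop) (mt : M → Prop) : Prop where
  zero : ∀ N, IsZero N → mt N
  point : ∀ i, mt (D.H i (aff k k))
  factor : ∀ {N N' : M} (i : N ⟶ N') (r : N' ⟶ N), i ≫ r = 𝟙 N → mt N' → mt N
  sum : ∀ {N N' : M}, Cv D N → Cv D N' → mt N → mt N' → mt (N ⊞ N')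
  twist : ∀ (a : ℤ) {N : M}, Cv D N → mt N → mt ((D.tw a).obj N)
  curve : ∀ Y : Sch k, SmoothProj Y → topologicalKrullDim Y.left ≤ (1 : ℕ) → ∀ i,
    mt (D.H i Y) ∨ ∃ A, Ab A ∧ Nonempty (D.H i Y ≅ D.H 1 A)
  jacobian : ∀ A, Ab A → ∃ Y : Sch k, SmoothProj Y ∧ topologicalKrullDim Y.left ≤ (1 : ℕ) ∧
    ∃ (i : D.H 1 A ⟶ D.H 1 Y) (r : D.H 1 Y ⟶ D.H 1 A), i ≫ r = 𝟙 _

/-- **The Mumford-Tate conjecture for abelian varieties and systems of quadratic equations.** See the
explanations above. -/
theorem result [IsAlgClosed k] [CharZero k] {D : CompactData k M} (h : IsCyclicMotives D)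
    {Ab : Sch k → Prop} {mt : M → Prop} (hm : IsMT D Ab mt) :
    (∀ X : Sch k, Built k 1 X → ∀ i, Cv D (D.H i X)) ∧
    ((∀ A, Ab A → mt (D.H 1 A)) ↔ ∀ X : Sch k, Built k 1 X → ∀ i, mt (D.H i X)) ∧
    (SumsHave D (Of D (IsQuadratic 3)) mt → ∀ A, Ab A → mt (D.H 1 A)) ∧
    ∀ n : ℕ, AffineQuadrics k n (Built k n) ∧ ProjectiveQuadrics k n (Built k n) := by
  have hD := h.compact
  have hss : ∀ {X Y : M} (f : X ⟶ Y), Mono f → ∃ r : Y ⟶ X, f ≫ r = 𝟙 X := h.semisimple
  have hcv : IsTateSerre D (Cv D) := gen_serre hD hss
  -- the class of the objects whose factors and twists are as wanted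
  let Q : M → Prop := fun N => Cv D N → mt N
  have hQ : IsTateSerre D (Facts D Q) := by
    refine facts_serre hD hss (fun X hX _ => hm.zero X hX) ?_ ?_
    · intro X Y e hX hY
      exact hm.factor e.inv e.hom e.inv_hom_id (hX (hcv.toIsSerre.iso e.symm hY))
    · intro X Y hX hY hXY
      have h1 : Cv D X := hcv.toIsSerre.of_mono biprod.inl hXY
      have h2 : Cv D Y := hcv.toIsSerre.of_mono biprod.inr hXY
      exact hm.sum h1 h2 (hX h1) (hY h2)
  have hto : ∀ N, Cv D N → mt N → Facts D Q N := fun N hN hmt a N' i r hir _ =>
    hm.factor i r hir (hm.twist a hN hmt)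
  have hfrom : ∀ N, Cv D N → Facts D Q N → mt N := fun N hN hf => by
    obtain ⟨e⟩ := hD.twZero
    exact hf 0 N (e.inv.app N) (e.hom.app N) (e.inv_hom_id_app N) hN
  have hcb : ∀ X : Sch k, Built k 1 X → ∀ i, Cv D (D.H i X) := fun X hX i => built_factor h hX i
  have hcurve : ∀ Y : Sch k, SmoothProj Y → topologicalKrullDim Y.left ≤ (1 : ℕ) →
      ∀ i, Cv D (D.H i Y) := fun Y hY hn i => FactorOfSum.self hD ⟨Y, i, hY, hn, rfl⟩
  have hpt : ∀ i, Cv D (D.H i (aff k k)) := point_factor hD h.generated hss 1 hcurve
  have hzero : ∀ i, Facts D Q (D.H i (aff k k)) := fun i => hto _ (hpt i) (hm.point i)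
  have two : (2 : k) ≠ 0 := two_ne_zero
  refine ⟨hcb, ⟨fun hA X hX i => hfrom _ (hcb X hX i) ?_, fun hX A hA => ?_⟩, fun hs A hA => ?_,
    fun n => ⟨affineQuadrics_built two n, projectiveQuadrics_built two n⟩⟩
  · refine built_serre h hQ (fun Y hY hn i => hto _ (hcurve Y hY hn i) ?_) hX i
    rcases hm.curve Y hY hn i with h1 | ⟨A, h1, ⟨e⟩⟩
    · exact h1
    · exact hm.factor e.hom e.inv e.hom_inv_id (hA A h1)
  · obtain ⟨Y, hY, hn, i, r, hir⟩ := hm.jacobian A hA
    refine hm.factor i r hir (hfrom _ (hcurve Y hY hn 1) ?_)
    exact of_affine_dim (bnd_compact hD hQ hzero)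
      (fun B _ _ _ hB j => hto _ (hcb _ (.dim B hB) j) (hX _ (.dim B hB) j)) Y hY.ft hn 1
  · obtain ⟨Y, hY, hn, i, r, hir⟩ := hm.jacobian A hA
    have h1 := sums_quadratic (P := mt) hm.factor h 1 hs
    obtain ⟨e⟩ := hD.twZero
    have h2 := h1 Unit (fun _ => D.H 1 Y) (fun _ => 0) fun _ => ⟨Y, 1, hY, hn, rfl⟩
    refine hm.factor (i ≫ e.inv.app _ ≫ biproduct.ι (fun _ : Unit => (D.tw 0).obj (D.H 1 Y)) ())
      (biproduct.π (fun _ : Unit => (D.tw 0).obj (D.H 1 Y)) () ≫ e.hom.app _ ≫ r) ?_ h2
    have h3 : e.inv.app (D.H 1 Y) ≫ e.hom.app (D.H 1 Y) = 𝟙 _ := e.inv_hom_id_app _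
    simp only [Category.assoc, biproduct.ι_π_self_assoc]
    rw [← Category.assoc (e.inv.app _), h3, Category.id_comp, hir]

end Pool.Agent.Results.MP_33b3f9_ag.QuadraticSystems
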